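import Pool.Agent.Helper46.DK.Fin
import Pool.Agent.Helper46.TT.Cardl

/-!
A conservative geometric functor of rigidly-compactly generated tt-categories whose double right
adjoint is not conservative.
-/

namespace Pool.Agent.Results.MP_9fe44b_al.ConservativeNotShriek

open CategoryTheory Limits MonoidalCategory Pool.Agent.Helper46.DK

instance : CharP Pool.Agent.Helper46.TT.R 2 :=
  CharTwo.of_one_ne_zero_of_two_eq_zero one_ne_zero (by
    have h : (2 : Pool.Agent.Helper46.TT.R) * 2 = 2 := Pool.Agent.Helper46.TT.boolTA _ _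
    linear_combination h)

instance : Nontrivial Pool.Agent.Helper46.TT.R' :=
  ⟨⟨0, 1, fun h => by
    have h1 := congrFun (congrArg Subtype.val h) (fun _ => (none, true))
    exact absurd h1 (by decide)⟩⟩

instance : CharP Pool.Agent.Helper46.TT.R' 2 :=
  CharTwo.of_one_ne_zero_of_two_eq_zero one_ne_zero (by
    have h : (2 : Pool.Agent.Helper46.TT.R') * 2 = 2 := Pool.Agent.Helper46.TT.bool_sub _ _
    linear_combination h)

theorem result : ∃ (T S : TTCat) (fUp : T.C ⥤ S.C) (fLow : S.C ⥤ T.C) (fShr : T.C ⥤ S.C),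
    T.IsRCG ∧ S.IsRCG ∧ IsGeometric T S fUp ∧ Nonempty (fUp ⊣ fLow) ∧ Nonempty (fLow ⊣ fShr) ∧
      fUp.ReflectsIsomorphisms ∧ ¬ fShr.ReflectsIsomorphisms ∧
      IsZero (fShr.obj (𝟙_ T.C)) ∧ ¬ IsZero (𝟙_ T.C) := by
  obtain ⟨G, H, ⟨adj⟩, ⟨adj'⟩⟩ := exists_adjoints Pool.Agent.Helper46.TT.R Pool.Agent.Helper46.TT.R'
  exact ⟨TT Pool.Agent.Helper46.TT.R, TT Pool.Agent.Helper46.TT.R', tbc _ _, G, H, TT_isRCG,
    TT_isRCG, tbc_geometric _ _, ⟨adj⟩, ⟨adj'⟩, tbc_conservative _ _,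
    shr_not_conservative _ _ Pool.Agent.Helper46.TT.ext_vanish adj adj',
    shr_unit _ _ Pool.Agent.Helper46.TT.ext_vanish adj adj', unit_not_zero _⟩

end Pool.Agent.Results.MP_9fe44b_al.ConservativeNotShriek
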